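import Pool.Agent.H49.Four7

namespace Pool.Agent.Results.MP_5114ef_an.FourFold

open Pool.Agent.H49

/-- There is a compact complex `4`-fold carrying a fibered holomorphic partially hyperbolic
diffeomorphism whose center distribution is not holomorphic near any point. -/
theorem result :
    ∃ (M : ComplexManifold 4) (f : M.carrier ≃ M.carrier) (Es Ec Eu : Distribution M),
      CompactSpace M.carrier ∧ T2Space M.carrier ∧ ConnectedSpace M.carrier ∧
      IsPartiallyHyperbolic f Es Ec Eu ∧ IsFibered f Ec ∧
      ∀ x : M.carrier, ¬ IsHolomorphicNear Ec x :=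
  ⟨MC, fC, EsC, EcC, EuC, (inferInstance : CompactSpace M4), (inferInstance : T2Space M4),
    (inferInstance : ConnectedSpace M4), isPartiallyHyperbolic_C, isFibered_C,
    fun x h => not_holomorphicAt_M x (hol_C h)⟩

end Pool.Agent.Results.MP_5114ef_an.FourFold
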